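import Pool.Agent.H10.BS2

/-! A finitely invariably generated group with a general type action on a real tree. -/

namespace Pool.Agent.Results.MP_078bdc_al.Yes

open Filter

/-- `S` invariably generates `G`. -/
def InvGen {G : Type} [Group G] (S : Set G) : Prop :=
  ∀ c : G → G, Subgroup.closure ((fun s => (c s)⁻¹ * s * c s) '' S) = ⊤

/-- Geodesic metric space. -/
def IsGeodesic (S : Type) [MetricSpace S] : Prop :=
  ∀ x y : S, ∃ γ : Set.Icc (0 : ℝ) (dist x y) → S, Isometry γ ∧
    γ ⟨0, le_rfl, dist_nonneg⟩ = x ∧ γ ⟨dist x y, dist_nonneg, le_rfl⟩ = y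

/-- The Gromov product. -/
noncomputable def gp {S : Type} [MetricSpace S] (o x y : S) : ℝ :=
  (dist o x + dist o y - dist x y) / 2

/-- Gromov's hyperbolicity condition. -/
def Hyperbolic (S : Type) [MetricSpace S] (δ : ℝ) : Prop :=
  ∀ o x y z : S, min (gp o x y) (gp o y z) - δ ≤ gp o x z

/-- The orbit map of `f` is a quasi-isometric embedding of the integers. -/
def Loxodromic {S : Type} [MetricSpace S] (f : S ≃ᵢ S) : Prop :=
  ∃ (o : S) (c C : ℝ), 0 < c ∧ ∀ n : ℤ, c * |(n : ℝ)| - C ≤ dist o ((f ^ n) o)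

/-- The Gromov products of two sequences tend to infinity. -/
def SameEnd {S : Type} [MetricSpace S] (o : S) (u v : ℕ → S) : Prop :=
  Tendsto (fun p : ℕ × ℕ => gp o (u p.1) (v p.2)) atTop atTop

/-- Two loxodromic elements with no common fixed point on the Gromov boundary. -/
def GeneralType {G S : Type} [Group G] [MetricSpace S] (ρ : G →* (S ≃ᵢ S)) : Prop :=
  ∃ g h : G, Loxodromic (ρ g) ∧ Loxodromic (ρ h) ∧
    ∀ (o : S) (u : ℕ → S),
      ¬ (SameEnd o u u ∧ SameEnd o u (fun n => ρ g (u n)) ∧ SameEnd o u (fun n => ρ h (u n)))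

open Pool.Agent.H10.BS in
theorem result : ∃ (G : Type) (_ : Group G), Countable G ∧ (∃ T : Finset G, InvGen (T : Set G)) ∧
    ∃ (S : Type) (_ : MetricSpace S) (δ : ℝ), 0 ≤ δ ∧ Nonempty S ∧ IsGeodesic S ∧ Hyperbolic S δ ∧
      ∃ ρ : G →* (S ≃ᵢ S), GeneralType ρ := by
  classical
  let G : Subgroup (X ≃ᵢ X) := Subgroup.closure {al, ta}
  let a : G := ⟨al, Subgroup.subset_closure (by simp)⟩
  let t : G := ⟨ta, Subgroup.subset_closure (by simp)⟩
  have hgen : Subgroup.closure {a, t} = ⊤ := by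
    have h := Subgroup.closure_closure_coe_preimage (k := ({al, ta} : Set (X ≃ᵢ X)))
    rw [← h]
    congr 1
    ext g
    simp only [Set.mem_insert_iff, Set.mem_singleton_iff, Set.mem_preimage, Subtype.ext_iff]
    rfl
  have hrel : t * a ^ 2 * t⁻¹ = a ^ 3 := Subtype.ext relation
  refine ⟨G, inferInstance, ?_, ⟨{a, t}, fun c => ?_⟩, X, inferInstance, 0, le_rfl, ⟨mk o⟩, geod,
    fun w x y z => ?_, G.subtype, t, a * t * a⁻¹, ⟨mk o, 1, 0, one_pos, fun n => ?_⟩,
    ⟨mk o, 1, 0, one_pos, fun n => ?_⟩, fun w u ⟨_, h1, h2⟩ => ?_⟩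
  · have hs : Function.Surjective (FreeGroup.lift (Subtype.val : ({a, t} : Set G) → G)) := by
      rw [← MonoidHom.range_eq_top, FreeGroup.range_lift_eq_closure, Subtype.range_coe, hgen]
    exact hs.countable
  · refine fig a t hgen hrel _ (c a)⁻¹ (c t)⁻¹ (Subgroup.subset_closure ⟨a, by simp, by simp⟩)
      (Subgroup.subset_closure ⟨t, by simp, by simp⟩)
  · have h := four w x y z
    simp only [gp, min_def, max_def] at *
    split_ifs at * <;> linarith
  · have := dist_ta n
    change _ ≤ dist (mk o) ((ta ^ n) (mk o))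
    linarith
  · change _ ≤ dist (mk o) (((al * ta * al⁻¹) ^ n) (mk o))
    have e : al⁻¹ (mk o) = mk o := rfl
    rw [conj_zpow, IsometryEquiv.mul_apply, IsometryEquiv.mul_apply, e]
    have e2 := al.dist_eq (mk o) ((ta ^ n) (mk o))
    rw [al_o, dist_ta] at e2
    linarith
  · obtain ⟨p, hp⟩ := eventually_atTop.1 ((h1.eventually_ge_atTop (1 + dist w (mk o))).and
      (h2.eventually_ge_atTop (1 + dist w (mk o))))
    obtain ⟨k1, k2⟩ := hp (max p.1 p.2, max p.1 p.2) ⟨le_max_left _ _, le_max_right _ _⟩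
    have key : ∀ x y : X, 1 + dist w (mk o) ≤ gp w x y →
        1 ≤ (dist (mk o) x + dist (mk o) y - dist x y) / 2 := by
      intro x y h
      have := dist_triangle w (mk o) x
      have := dist_triangle w (mk o) y
      simp only [gp] at h
      linarith
    exact no_common _ (key _ _ k1) (key _ _ k2)

end Pool.Agent.Results.MP_078bdc_al.Yes
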